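import Pool.Agent.Q15.HM.H7

/-!
# The Hénon maps `(x, y) ↦ (y, y ^ d + c - δ x)` with a rational periodic point: all moments

Let `d ≥ 4` be even and `δ ≠ 0` an integer. For 100% of the rational numbers `c` the generalized
Hénon map `f(x, y) = (y, y ^ d + c - δ x)` has no periodic point in `ℚ²`, for the trivial reason that
the denominator of `c` is not a `d`-th power. We count the `c` with periodic points and determine how
many there are:

* the number of rational `c` of height at most `X` such that `f` has a rational periodic point is of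
  order `X ^ (2 / d)`;
* all but `O(X ^ ((d + 1) / d ^ 2 + ε))` of these `c` are typical: the set of the periodic points is a
  single fixed point `(x, x)`, or `δ = 1, -1` and it consists of the four points `(± x, ± x)`,
  `c = - x ^ d` (a 4-cycle if `δ = 1`, two fixed points and a 2-cycle if `δ = -1`);
* all moments of the number of the rational periodic points over the exceptional `c` are
  `O(X ^ ((d + 1) / d ^ 2 + ε))`.

(As `(d + 1) / d ^ 2 < 2 / d`.)

Proof. All coordinates of all periodic points have the same denominator `b`, `c` has the denominator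
`b ^ d`, and the numerators satisfy `u ^ d ≡ w ^ d` modulo `b ^ (d - 1)`. If all coordinates have the
same absolute value, `c` is typical. Otherwise every coordinate `u / b` belongs to a pair with
`u ≠ ± w`, and `c` is given by it and by its two neighbours in the cycle. For every prime `p` dividing
`b` the quotient `w / u` is one of at most `d` roots of unity modulo `p` (modulo 4 for `p = 2`). By
the lifting the exponent lemma, for two pairs with the same roots of unity the determinant is
divisible by `b ^ (d - 1) / d`; real absolute values (`|u|` and `|w|` are very close if `|c|` is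
large) show that it is zero. So all pairs in a class are multiples of one coprime pair, which is not
small as `b ^ (d - 1)` divides `u ^ d - w ^ d ≠ 0`.
-/

set_option autoImplicit false

namespace Pool.Agent.Results.MP_0e6b5f_nt.AllMomentsHenon

/-- The generalized Hénon map `f(x, y) = (y, y ^ d + c - δ x)`. -/
def henon (d : ℕ) (δ : ℤ) (c : ℚ) (P : ℚ × ℚ) : ℚ × ℚ := (P.2, P.2 ^ d + c - δ * P.1)

/-- Its periodic points in `ℚ²`. -/
def periodic (d : ℕ) (δ : ℤ) (c : ℚ) : Set (ℚ × ℚ) :=
  {P | ∃ n : ℕ, 0 < n ∧ (henon d δ c)^[n] P = P}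

/-- The rational numbers `c` with numerator and denominator at most `X` in absolute value such that
`f` has a rational periodic point. -/
def parameters (d : ℕ) (δ : ℤ) (X : ℝ) : Set ℚ :=
  {c | ((|c.num| : ℤ) : ℝ) ≤ X ∧ (c.den : ℝ) ≤ X ∧ (periodic d δ c).Nonempty}

/-- The set of the rational periodic points is `{(x, x)}`, or `|δ| = 1` and it is
`{(x, x), (x, -x), (-x, x), (-x, -x)}`, where `x ≠ 0` and `c = - x ^ d`. -/
def Typical (d : ℕ) (δ : ℤ) (c : ℚ) : Prop :=
  (∃ x : ℚ, periodic d δ c = {(x, x)}) ∨ (|δ| = 1 ∧ ∃ x : ℚ, x ≠ 0 ∧ x ^ d + c = 0 ∧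
    periodic d δ c = {(x, x), (x, -x), (-x, x), (-x, -x)})

/-- The parameters which are not typical. -/
def exceptional (d : ℕ) (δ : ℤ) (X : ℝ) : Set ℚ :=
  {c | c ∈ parameters d δ X ∧ ¬ Typical d δ c}

/-- Let `d ≥ 4` be even, `δ ≠ 0` an integer, `p ≥ 0` an integer and `ε > 0`. There is `C` such that
for every `X ≥ 1`: the number of rational `c` of height at most `X` such that the Hénon map
`f(x, y) = (y, y ^ d + c - δ x)` has a periodic point in `ℚ²` is between `X ^ (2 / d) / C` and
`C X ^ (2 / d)`; the sum of the `p`-th powers of the number of rational periodic points of `f`, over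
those of them which are not typical, is at most `C X ^ ((d + 1) / d ^ 2 + ε)` (for `p = 0`: the number
of these `c`). -/
theorem result (d : ℕ) (hd : Even d) (hd4 : 4 ≤ d) (δ : ℤ) (hδ : δ ≠ 0) (p : ℕ) (ε : ℝ)
    (hε : 0 < ε) :
    (∀ c : ℚ, (periodic d δ c).Finite) ∧ ∃ C : ℝ, ∀ X : ℝ, 1 ≤ X →
      (parameters d δ X).Finite ∧
      X ^ (2 / (d : ℝ)) ≤ C * ((parameters d δ X).ncard : ℝ) ∧
      ((parameters d δ X).ncard : ℝ) ≤ C * X ^ (2 / (d : ℝ)) ∧
      ∑ᶠ c ∈ exceptional d δ X, ((periodic d δ c).ncard : ℝ) ^ p ≤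
        C * X ^ (((d : ℝ) + 1) / (d : ℝ) ^ 2 + ε) := by
  have hd0 : (0 : ℝ) < d := by
    have : 0 < d := by omega
    exact_mod_cast this
  obtain ⟨K₁, hK₁, h1⟩ := Pool.Agent.Q15.HM.par_upper hd hd4 hδ
  obtain ⟨K₂, hK₂, h2⟩ := Pool.Agent.Q15.HM.moments hd hd4 hδ p (ε * d) (by positivity)
  obtain ⟨K₃, hK₃, h7⟩ := Pool.Agent.Q15.HM.par_lower hd hd4 hδ
  refine ⟨fun c => Pool.Agent.Q15.HM.per_finite hd hd4 δ c, max (max K₁ K₂) K₃, fun X hX => ?_⟩
  obtain ⟨h3, h4⟩ := h1 X hX
  have hsub : exceptional d δ X ⊆ Pool.Agent.Q15.HM.Bad d δ X := by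
    rintro c ⟨hc1, hc2⟩
    exact (Pool.Agent.Q15.HM.typ_or_bad hd hd4 hδ hc1).resolve_left hc2
  have h6 := h2 X hX _ hsub
  have h7 := h7 X hX
  have e1 : (X ^ (1 / (d : ℝ))) ^ (2 : ℝ) = X ^ (2 / (d : ℝ)) := by
    rw [← Real.rpow_mul (by linarith)]
    congr 1
    ring
  have e2 : (X ^ (1 / (d : ℝ))) ^ (1 + 1 / (d : ℝ) + ε * d) =
      X ^ (((d : ℝ) + 1) / (d : ℝ) ^ 2 + ε) := by
    rw [← Real.rpow_mul (by linarith)]
    congr 1
    field_simp
  rw [e1] at h4 h7
  rw [e2] at h6
  refine ⟨h3, ?_, ?_, ?_⟩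
  · refine h7.trans (mul_le_mul_of_nonneg_right (le_max_right _ _) (Nat.cast_nonneg _))
  · refine h4.trans (mul_le_mul_of_nonneg_right ((le_max_left _ _).trans (le_max_left _ _)) ?_)
    positivity
  · refine le_trans h6 (mul_le_mul_of_nonneg_right ((le_max_right _ _).trans (le_max_left _ _)) ?_)
    positivity

end Pool.Agent.Results.MP_0e6b5f_nt.AllMomentsHenon
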