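import Mathlib
import Pool.Agent.Q195.HD6

/-!
# Hénon maps whose middle coefficients are dominated at one place

Let `f(x, y) = (y, F(y) - δ x)`, `F = a_0 + a_1 y + ... + a_d y^d`, be a generalized Hénon map of
degree `d` over a number field `K` of degree at most `D`, and let `B ≥ 1`. Let `p` be a prime number
such that `d` is prime to `p` and to `p ^ f - 1` for all `f ≤ D B²` (over `ℚ`, with `B = 1`: `p = 2`
and `d` odd). If there is a place of `K` above `p` at which

  `|a_k|^(d-1) ≤ max(1, |δ|)^(d-k) |a_d|^(k-1)` for `1 ≤ k < d`,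

then the number of the periodic points `P` of `f` with `[K(P) : K] ≤ B` is bounded by a constant
which depends only on `D`, `B`, `d` and `p`. There is no condition on the constant term `a_0`, on
the other places, or on the size of `δ`. The condition holds for all `a y^d + b` and, for example,
if `F` is monic and `δ, a_1, ..., a_{d-1}` are integral at the place; `a_0` is arbitrary.

Proof. Let `M` be the largest absolute value of the coordinates of a cycle. If
`|a_d| M^(d-1) > max(1, |δ|)`, the term `a_d y^d` dominates, all coordinates have the absolute value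
`M`, and `y ↦ F(y)` expands the distances of the points of that size with the same residue by the
factor `|a_d| M^(d-1)`, while `y^d` determines the residue; so there is only one periodic point.
Otherwise, after division by the coordinate of absolute value `M` (and after passing to the inverse
map if `|δ| > 1`) the recursion is integral; by the finiteness of `O_w / p²` the sequence of the
coordinates has, modulo `p²`, a bounded period, the normalised differences of the sequence and its
shift satisfy a linear recursion modulo `p²` with periodic coefficients, and it follows that the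
period is a divisor of a number depending only on `p` and `[K(P) : ℚ]`.
-/

set_option autoImplicit false

namespace Pool.Agent.Results.MP_0e6b5f_nt.DominatedMiddleTerms

open Polynomial Module

/-- The generalized Hénon map `f(x, y) = (y, F(y) - δ x)` on the plane over the algebraic closure. -/
noncomputable def henon {K : Type} [Field K] (F : K[X]) (δ : K)
    (P : AlgebraicClosure K × AlgebraicClosure K) : AlgebraicClosure K × AlgebraicClosure K :=
  (P.2, aeval P.2 F - algebraMap K (AlgebraicClosure K) δ * P.1)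

/-- The periodic points `P` of `f` with `[K(P) : K] ≤ B`. -/
def perPoints {K : Type} [Field K] (F : K[X]) (δ : K) (B : ℕ) :
    Set (AlgebraicClosure K × AlgebraicClosure K) :=
  {P | (∃ n : ℕ, 0 < n ∧ (henon F δ)^[n] P = P) ∧
    finrank K (IntermediateField.adjoin K {P.1, P.2}) ≤ B}

/-- `|a_k|^(d-1) ≤ max(1, |δ|)^(d-k) |a_d|^(k-1)` for `1 ≤ k < d`, where `d` is the degree of
`F = a_0 + ... + a_d y^d` and `|·|` is the absolute value of `K` given by an embedding `σ` of `K` in
the algebraic closure of `ℚ_p`. -/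
def Dominated {p : ℕ} [Fact p.Prime] {K : Type} [Field K] (σ : K →+* PadicAlgCl p) (F : K[X])
    (δ : K) : Prop :=
  ∀ k, 1 ≤ k → k < F.natDegree → ‖σ (F.coeff k)‖ ^ (F.natDegree - 1) ≤
    max 1 ‖σ δ‖ ^ (F.natDegree - k) * ‖σ F.leadingCoeff‖ ^ (k - 1)

lemma encard_le_of_finset {α : Type*} (s : Set α) (n : ℕ)
    (h : ∀ Y : Finset α, (∀ P ∈ Y, P ∈ s) → Y.card ≤ n) : s.encard ≤ n := by
  classical
  by_contra hcon
  push Not at hcon
  have h1 : ((n + 1 : ℕ) : ℕ∞) ≤ s.encard := by
    push_cast
    exact Order.add_one_le_of_lt hcon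
  obtain ⟨t, hts, ht⟩ := Set.exists_subset_encard_eq h1
  have hfin : t.Finite := Set.finite_of_encard_eq_coe ht
  have h2 := h hfin.toFinset (fun P hP => hts (by simpa using hP))
  have h3 : t.encard = (hfin.toFinset.card : ℕ∞) := hfin.encard_eq_coe_toFinset_card
  rw [h3] at ht
  have h4 : hfin.toFinset.card = n + 1 := by exact_mod_cast ht
  omega

/-- the absolute value given by a homomorphism to a normed field -/
noncomputable def absOf {Ω E : Type} [Field Ω] [NormedField E] (ι : Ω →+* E) :
    AbsoluteValue Ω ℝ where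
  toFun x := ‖ι x‖
  map_mul' x y := by rw [map_mul, norm_mul]
  nonneg' x := norm_nonneg _
  eq_zero' x := by rw [norm_eq_zero, map_eq_zero]
  add_le' x y := by rw [map_add]; exact norm_add_le _ _

/-- **Uniform boundedness for Hénon maps with dominated middle coefficients.**
(1) Let `D, B ≥ 1`, `d ≥ 2` and let `p` be a prime number such that `d` is prime to `p (p ^ f - 1)`
for `1 ≤ f ≤ D B²`. There is a constant `C` such that for every number field `K` of degree at most
`D` and every generalized Hénon map `f(x, y) = (y, F(y) - δ x)` of degree `d` over `K` which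
satisfies `Dominated` at some place of `K` above `p`, at most `C` periodic points `P` of `f` over
the algebraic closure satisfy `[K(P) : K] ≤ B`.
(2) Over the rational numbers: for every odd `d ≥ 3` there is a constant `C` such that every
generalized Hénon map `f(x, y) = (y, F(y) - δ x)` of degree `d` over `ℚ` with
`|a_k|₂^(d-1) ≤ max(1, |δ|₂)^(d-k) |a_d|₂^(k-1)` for `1 ≤ k < d` has at most `C` periodic points in
`ℚ²`. -/
theorem result :
    (∀ (D B d p : ℕ) [Fact p.Prime], 1 ≤ D → 1 ≤ B → 2 ≤ d →
      (∀ f, 1 ≤ f → f ≤ D * B ^ 2 → Nat.Coprime d (p * (p ^ f - 1))) →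
      ∃ C : ℕ, ∀ (K : Type) [Field K] [NumberField K], finrank ℚ K ≤ D →
        ∀ (F : K[X]) (δ : K), F.natDegree = d → δ ≠ 0 →
          (∃ σ : K →+* PadicAlgCl p, Dominated σ F δ) → (perPoints F δ B).encard ≤ C) ∧
    (∀ d : ℕ, 3 ≤ d → Odd d → ∃ C : ℕ, ∀ (F : ℚ[X]) (δ : ℚ), F.natDegree = d → δ ≠ 0 →
      (∀ k, 1 ≤ k → k < d → padicNorm 2 (F.coeff k) ^ (d - 1) ≤
        max 1 (padicNorm 2 δ) ^ (d - k) * padicNorm 2 F.leadingCoeff ^ (k - 1)) →
      {P : ℚ × ℚ | ∃ n : ℕ, 0 < n ∧
        (fun P : ℚ × ℚ => (P.2, F.eval P.2 - δ * P.1))^[n] P = P}.encard ≤ C) := by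
  refine ⟨?_, ?_⟩
  · intro D B d p hpf hD hB hd hcop
    have hp : p.Prime := hpf.out
    have hDB : 1 ≤ D * B ^ 2 := Nat.mul_pos hD (pow_pos hB 2)
    refine ⟨d ^ Pool.Agent.Q195.HD.per p (D * B), ?_⟩
    intro K _ _ hK F δ hF _ ⟨σ, hσ⟩
    apply encard_le_of_finset
    intro S hS
    let _ : Algebra K (PadicAlgCl p) := σ.toAlgebra
    let ι : AlgebraicClosure K →ₐ[K] PadicAlgCl p := IsAlgClosed.lift
    let w : AbsoluteValue (AlgebraicClosure K) ℝ := absOf (ι : AlgebraicClosure K →+* PadicAlgCl p)
    have hw : ∀ x : K, w (algebraMap K (AlgebraicClosure K) x) = ‖σ x‖ := by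
      intro x
      show ‖ι (algebraMap K (AlgebraicClosure K) x)‖ = _
      rw [AlgHom.commutes]
      rfl
    have hna : IsNonarchimedean w := by
      intro x y
      show ‖ι (x + y)‖ ≤ max ‖ι x‖ ‖ι y‖
      rw [map_add]
      exact PadicAlgCl.isNonarchimedean p _ _
    have hwp : w (p : AlgebraicClosure K) < 1 := by
      show ‖ι (p : AlgebraicClosure K)‖ < 1
      rw [map_natCast]
      have h1 : ((p : ℕ) : PadicAlgCl p) = ((p : ℚ_[p]) : PadicAlgCl p) := by
        rw [map_natCast]
      rw [h1, PadicAlgCl.norm_extends]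
      exact Padic.norm_p_lt_one
    have hhen : henon F δ = Pool.Agent.H504D.hen (F.map (algebraMap K (AlgebraicClosure K)))
        (algebraMap K (AlgebraicClosure K) δ) := by
      funext P
      unfold henon Pool.Agent.H504D.hen
      rw [eval_map, aeval_def]
    refine Pool.Agent.Q195.HD.global D B d p hd hp ?_ ?_ K (AlgebraicClosure K) hK w hna hwp F δ hF
      ?_ S ?_
    · exact (hcop 1 le_rfl hDB).coprime_mul_right_right
    · intro f hf1 hf2
      exact (hcop f hf1 hf2).coprime_mul_left_right
    · intro k h1 h2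
      rw [natDegree_map] at h2
      rw [natDegree_map, leadingCoeff_map, coeff_map, hw, hw, hw]
      exact hσ k h1 h2
    · intro P hP
      obtain ⟨⟨n, hn, h1⟩, h2⟩ := hS P hP
      rw [hhen] at h1
      exact ⟨⟨n, hn, h1⟩, h2⟩
  · intro d hd hodd
    have hpf : Fact (Nat.Prime 2) := ⟨Nat.prime_two⟩
    refine ⟨d ^ Pool.Agent.Q195.HD.per 2 (1 * 1), ?_⟩
    intro F δ hF _ hmid
    apply encard_le_of_finset
    intro S hS
    let w : AbsoluteValue ℚ ℝ := absOf (Rat.castHom ℚ_[2])
    have hw : ∀ x : ℚ, w x = ((padicNorm 2 x : ℚ) : ℝ) := by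
      intro x
      show ‖(Rat.castHom ℚ_[2]) x‖ = _
      rw [Rat.coe_castHom]
      exact Padic.eq_padicNorm x
    have hna : IsNonarchimedean w := by
      intro x y
      show ‖(Rat.castHom ℚ_[2]) (x + y)‖ ≤ max ‖(Rat.castHom ℚ_[2]) x‖ ‖(Rat.castHom ℚ_[2]) y‖
      rw [map_add]
      exact Padic.nonarchimedean _ _
    have hwp : w ((2 : ℕ) : ℚ) < 1 := by
      show ‖(Rat.castHom ℚ_[2]) ((2 : ℕ) : ℚ)‖ < 1
      rw [map_natCast]
      exact Padic.norm_p_lt_one
    refine Pool.Agent.Q195.HD.global 1 1 d 2 (by omega) Nat.prime_two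
      (Nat.coprime_two_right.2 hodd) ?_ ℚ ℚ (by rw [finrank_self]) w hna hwp F δ hF
      ?_ S ?_
    · intro f hf1 hf2
      have : f = 1 := by omega
      subst this
      simp
    · intro k h1 h2
      rw [Algebra.algebraMap_self, Polynomial.map_id] at h2 ⊢
      rw [hw, hw, RingHom.id_apply, hw]
      rw [hF] at h2 ⊢
      exact_mod_cast hmid k h1 h2
    · intro P hP
      obtain ⟨n, hn, h1⟩ := hS P hP
      rw [Algebra.algebraMap_self, Polynomial.map_id]
      refine ⟨⟨n, hn, h1⟩, ?_⟩
      calc finrank ℚ (IntermediateField.adjoin ℚ ({P.1, P.2} : Set ℚ)) ≤ finrank ℚ ℚ :=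
            Submodule.finrank_le
              (IntermediateField.adjoin ℚ ({P.1, P.2} : Set ℚ)).toSubalgebra.toSubmodule
        _ = 1 := finrank_self ℚ

end Pool.Agent.Results.MP_0e6b5f_nt.DominatedMiddleTerms
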