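import Pool.Agent.Results.MP_0e6b5f_nt.HundredPercent
import Pool.Agent.Q319.WN.Basis

/-!
# Uniform boundedness of periodic points for ALL Hénon maps near the multiples and the dilates of almost every real one

A generalized Hénon map `(x, y) ↦ (y, (a_0 + a_1 y + … + a_d y^d - δ x) / m)`, `m = m_1 ⋯ m_r`, over a number field `k` is
given by the vector of the integers `a_i`, `δ`, `m_s` of `k`, and this one by its vector of coordinates in an integral basis
`ω` of `k`. For all `D`, `B` and `d ≥ 2` there is a constant `C`, equal to `0` if `B < d`, such that the following holds for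
every number field `k` of degree at most `D`, every integral basis `ω` and every `r`. A vector is good if it defines a Hénon
map of degree `d` with at most `C` periodic points `P` of degree `[k(P) : k] ≤ B`. Let `F` denote a real vector with as many
entries as the vectors of coordinates.

1. For all `F` with entries at most `Y` outside a set of measure at most `ε Y ^ M`, `M` the number of entries, and 100% of
   the `n ≤ R` ALL the integral vectors within `w` of `n F` are good (`Y` large in terms of `ε`, `w`, `k`, `ω`, `r`; every
   `R`).
2. For every sequence `v_n → ∞` and almost every `F` ALL the integral vectors within `w` of `v_n F` are good, for 100% of the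
   `n < K_j`, for a sequence `K_j → ∞` which does not depend on `F` and `w`.
3. If `v_n` increases fast enough then for almost every `F` and all large `n` ALL the integral vectors within `n` of
   `v_n F` are good.

From Mathlib: `volume`: the Lebesgue measure; `Module.Basis`; `𝓞 k`. That 100% of the vectors are good is from the starting
file `HundredPercent` (with the definitions of `Coeffs`, `IsHenon`, `Bounded`). `vec` is defined in
`Pool.Agent.Q319.WN.Basis`; `MultiplesVec`, `DilatesVec`, `FastDilatesVec` in `Pool.Agent.Q319.WN.Vec`.
-/

set_option autoImplicit false

namespace Pool.Agent.Results.MP_0e6b5f_nt.MapsNearRealMaps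

open Filter Topology NumberField Pool.Agent.Q319.WN Pool.Agent.Results.MP_0e6b5f_nt.HundredPercent

/-- The vector of integers defines a generalized Hénon map of degree `d` with at most `C` periodic points of degree at most
`B` over `k`. -/
def Good {k : Type} [Field k] [NumberField k] {d r : ℕ} (B C : ℕ) (q : Coeffs k d r) : Prop :=
  IsHenon q ∧ Bounded B C q

/-- For all `D`, `B` and `d ≥ 2` there is a constant `C`, equal to `0` if `B < d`, such that for every number field `k` of
degree at most `D`, every integral basis `ω` of `k` and every `r` the vectors of coordinates of the vectors which are not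
good are
1. rare at the multiples of almost every real vector `F`,
2. rare at the dilates `v n F`, for every sequence `v n → ∞` and almost every `F`,
3. absent within the distance `n` of `v n F`, for all large `n`, for every fast sequence `v n` and almost every `F` (see
   `MultiplesVec`, `DilatesVec` and `FastDilatesVec` for the precise statements). -/
theorem result (D B d : ℕ) (hd : 2 ≤ d) : ∃ C : ℕ, (B < d → C = 0) ∧
    ∀ (k : Type) [Field k] [NumberField k], Module.finrank ℚ k ≤ D →
      ∀ (J : Type) [Fintype J] (ω : Module.Basis J ℤ (𝓞 k)) (r : ℕ),
        MultiplesVec (fun x : (Fin (d + 1) ⊕ Option (Fin r)) × J → ℤ => ¬ Good (d := d) (r := r) B C (vec ω x)) ∧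
          DilatesVec (fun _ (x : (Fin (d + 1) ⊕ Option (Fin r)) × J → ℤ) => ¬ Good (d := d) (r := r) B C (vec ω x)) ∧
          FastDilatesVec (fun _ (x : (Fin (d + 1) ⊕ Option (Fin r)) × J → ℤ) => ¬ Good (d := d) (r := r) B C (vec ω x)) := by
  obtain ⟨C, hC, h⟩ := HundredPercent.result D B d hd
  refine ⟨C, hC, fun k _ _ hk J _ ω r => ?_⟩
  have h1 : NullBox (fun x : (Fin (d + 1) ⊕ Option (Fin r)) × J → ℤ => ¬ Good (d := d) (r := r) B C (vec ω x)) :=
    null_basis ω (fun q : Coeffs k d r => Good B C q) (h k hk J ω r)
  have h2 := null_all (P := fun _ (x : (Fin (d + 1) ⊕ Option (Fin r)) × J → ℤ) =>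
    ¬ Good (d := d) (r := r) B C (vec ω x)) fun _ => h1
  exact ⟨h2.1 0, h2.2⟩

end Pool.Agent.Results.MP_0e6b5f_nt.MapsNearRealMaps
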