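import Mathlib
import Pool.Agent.Results.MP_0e6b5f_nt.LargeDegreeHenon
import Pool.Agent.Q21.DW.Cnt

/-!
# Hénon maps of all large degrees: at most nine rational periodic points for constant terms of random size

The height `H(c)` of a rational number is the maximum of `|numerator|` and denominator. For all `s > 0`
and `k` there are `d₀` and `δ > 0` such that, for an integer `m` given by the digits or the multiples of a
random real number (in the sense of `RandomReals s`): for ALL rational `a, b ≠ 0` and all `g ∈ ℚ[y]` of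
degree at most `k` (`m` large in terms of these), ALL degrees `d` with `d₀ ≤ d ≤ m ^ δ` and ALL rational
`c` with `(m - 1) ^ d < H(c) ≤ m ^ d`, the generalised Hénon map
`(x, y) ↦ (y, a y ^ d + g(y) + c - b x)` has at most nine rational periodic points.
-/

set_option autoImplicit false

namespace Pool.Agent.Results.MP_0e6b5f_nt.RandomParameters

open LargeDegreeHenon (HeightLE henon periodic exceptional)

/-- For ALL degrees `d` with `d₀ ≤ d ≤ m ^ δ` and ALL rational numbers `c` of height at most `m ^ d` and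
not at most `(m - 1) ^ d` the Hénon map `(x, y) ↦ (y, a y ^ d + g(y) + c - b x)` has at most nine rational
periodic points. -/
def Nine (a b : ℚ) (g : Polynomial ℚ) (d₀ : ℕ) (δ : ℝ) (m : ℕ) : Prop :=
  ∀ (d : ℕ) (c : ℚ), d₀ ≤ d → (d : ℝ) ≤ (m : ℝ) ^ δ → HeightLE (m ^ d) c →
    ¬ HeightLE ((m - 1) ^ d) c → (periodic (henon a b g d c)).encard ≤ 9

lemma HeightLE.mono {B B' : ℕ} {q : ℚ} (h : HeightLE B q) (hB : B ≤ B') : HeightLE B' q :=
  ⟨h.1.trans (by exact_mod_cast hB), h.2.trans hB⟩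

/-- the least `m` such that the height of `c` is at most `m ^ d` -/
noncomputable def sz (t : ℕ × ℚ) : ℕ := sInf {m : ℕ | HeightLE (m ^ t.1) t.2}

lemma sz_eq {d : ℕ} {c : ℚ} {m : ℕ} (hm : 1 ≤ m) (h1 : HeightLE (m ^ d) c)
    (h2 : ¬ HeightLE ((m - 1) ^ d) c) : sz (d, c) = m := by
  unfold sz
  refine le_antisymm (Nat.sInf_le h1) ?_
  refine le_csInf ⟨m, h1⟩ fun l hl => ?_
  by_contra hcon
  have hl' : HeightLE (l ^ d) c := hl
  exact h2 (HeightLE.mono hl' (Nat.pow_le_pow_left (by omega) d))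

lemma exists_height (a b : ℚ) (g : Polynomial ℚ) : ∃ M : ℕ, 1 ≤ M ∧ ∀ B : ℕ, M ≤ B →
    HeightLE B a ∧ HeightLE B b ∧ ∀ i, HeightLE B (g.coeff i) := by
  have h0 : ∀ c : ℚ, HeightLE (max c.num.natAbs c.den) c := by
    intro c
    refine ⟨?_, le_max_right _ _⟩
    rw [Int.abs_eq_natAbs]
    exact_mod_cast le_max_left _ _
  refine ⟨max (max (max a.num.natAbs a.den) (max b.num.natAbs b.den)) (max 1
    ((Finset.range (g.natDegree + 1)).sup fun i => max (g.coeff i).num.natAbs (g.coeff i).den)),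
    le_max_of_le_right (le_max_left _ _), fun B hB => ⟨?_, ?_, fun i => ?_⟩⟩
  · exact HeightLE.mono (h0 a) (((le_max_left _ _).trans (le_max_left _ _)).trans hB)
  · exact HeightLE.mono (h0 b) (((le_max_right _ _).trans (le_max_left _ _)).trans hB)
  · have h2 := (le_max_right _ _).trans hB
    rw [max_le_iff] at h2
    rcases Nat.lt_or_ge g.natDegree i with h3 | h3
    · rw [Polynomial.coeff_eq_zero_of_natDegree_lt h3]
      refine HeightLE.mono (h0 0) (le_trans ?_ h2.1)
      simp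
    · refine HeightLE.mono (h0 _) (le_trans ?_ h2.2)
      exact Finset.le_sup (f := fun i => max (g.coeff i).num.natAbs (g.coeff i).den)
        (Finset.mem_range.2 (by omega))

/-- **Theorem.** Let `0 < s < 1` and `k ∈ ℕ`. There are `d₀ > k` and `δ > 0` such that, in the sense of
`RandomReals s` (windows of digits in all bases, and integers near the multiples `α v_j`, for random real
numbers `α`, with Hausdorff dimensions and measures of the exceptional sets), for all rational `a, b ≠ 0`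
and all `g ∈ ℚ[y]` of degree at most `k` the property `Nine a b g d₀ δ m` holds, `m` the random integer. -/
theorem result (k : ℕ) (s : ℝ) (hs : 0 < s) (hs1 : s < 1) : ∃ (d₀ : ℕ) (δ : ℝ), k < d₀ ∧ 0 < δ ∧
    Pool.Agent.Q21.DW.RandomReals s (fun (e : ℚ × ℚ × Polynomial ℚ) (m : ℕ) =>
      e.1 ≠ 0 → e.2.1 ≠ 0 → e.2.2.natDegree ≤ k → Nine e.1 e.2.1 e.2.2 d₀ δ m) := by
  classical
  obtain ⟨d₀, δ, hd₀, hδ, h⟩ := LargeDegreeHenon.result k 1 s hs
  refine ⟨d₀, δ, hd₀, hδ, ?_⟩
  haveI hcnt : Countable (Polynomial ℚ) :=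
    Cardinal.mk_le_aleph0_iff.1 (Polynomial.cardinalMk_le_max.trans (max_le Cardinal.mk_le_aleph0 le_rfl))
  refine Pool.Agent.Q21.DW.randomReals_of (B := fun (e : ℚ × ℚ × Polynomial ℚ) (m : ℕ) =>
    e.1 ≠ 0 ∧ e.2.1 ≠ 0 ∧ e.2.2.natDegree ≤ k ∧ ¬ Nine e.1 e.2.1 e.2.2 d₀ δ m) hs.le hs1
    (fun e => ?_) (fun e m _ h1 ha hb hg => ?_)
  · obtain ⟨a, b, g⟩ := e
    by_cases he : a ≠ 0 ∧ b ≠ 0 ∧ g.natDegree ≤ k
    swap
    · exact Pool.Agent.Q21.DW.ps_false fun m hm => he ⟨hm.1, hm.2.1, hm.2.2.1⟩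
    obtain ⟨ha, hb, hg⟩ := he
    obtain ⟨M, hM1, hM⟩ := exists_height a b g
    refine Pool.Agent.Q21.DW.ps_of (fun X : ℕ => exceptional a b g d₀ δ (M * X)) sz _ _ ?_ ?_
    · intro ε hε
      refine ⟨(M : ℝ) ^ s, fun X hX => ?_⟩
      have hX1 : (1 : ℝ) ≤ X := by exact_mod_cast hX
      have hMX : M ≤ (M * X) ^ 1 := by
        rw [pow_one]
        exact Nat.le_mul_of_pos_right M hX
      obtain ⟨e1, e2, e3⟩ := hM _ hMX
      obtain ⟨f1, f2⟩ := h (M * X) (Nat.mul_pos hM1 hX) a b g ha hb e1 e2 hg e3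
      refine ⟨f1, f2.trans ?_⟩
      push_cast
      rw [Real.mul_rpow (Nat.cast_nonneg _) (Nat.cast_nonneg _)]
      exact mul_le_mul_of_nonneg_left (Real.rpow_le_rpow_of_exponent_le hX1 (by linarith))
        (by positivity)
    · intro m X hm hmX hB
      have hB2 := hB.2.2.2
      unfold Nine at hB2
      push Not at hB2
      obtain ⟨d, c, h1, h2, h3, h4, h5⟩ := hB2
      have hmMX : m ≤ M * X := hmX.trans (Nat.le_mul_of_pos_left X hM1)
      refine ⟨(d, c), ⟨h1, h2.trans ?_, ?_, h5⟩, sz_eq hm h3 h4⟩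
      · exact Real.rpow_le_rpow (Nat.cast_nonneg _) (by exact_mod_cast hmMX) hδ.le
      · exact HeightLE.mono h3 (Nat.pow_le_pow_left hmMX d)
  · by_contra hcon
    exact h1 ⟨ha, hb, hg, hcon⟩

end Pool.Agent.Results.MP_0e6b5f_nt.RandomParameters
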